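import Pool.Agent.H84.ND.Targets2
import Pool.Agent.H1.SM.GDW

/-!
# GDN: the derivative with respect to `w`, every form (MP_70ba79_ag, board `ndc_modules`)
-/

set_option autoImplicit false

namespace Pool.Agent.H77.ND

open MvPolynomial SC Pool.Agent.H27.LV Pool.Agent.H84.SM Pool.Agent.H84.ND
open Pool.Agent.H1.SM (dv_gA gA_BH BH_mul BH_nat coeff_gR)

theorem pf_GDN (hPSG : Pool.Agent.H84.SM.T_PSG) : T_GDN := by
  intro k _ _ _ G d hd hG n M τ N hN
  obtain ⟨hI, ⟨e, he, hB⟩, hP⟩ := hN
  refine ⟨?_, ⟨e + d, ?_, ?_⟩, ?_⟩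
  · intro j
    rw [coeff_gR, Derivation.leibniz, Derivation.leibniz, dv_gA, hI (j + 1)]
    have h1 : dv ((((j + 1 : ℕ)) : A2 k)) = 0 := Derivation.map_natCast _ _
    rw [h1]
    simp
  · push_cast at he ⊢
    rw [he]
    ring
  · intro j
    obtain ⟨h1, h2⟩ := hB (j + 1)
    rw [coeff_gR]
    constructor
    · intro hj
      have h3 := h1 (by omega)
      have h4 : n + 3 - 3 * (j + 1) = n - 3 * j := by omega
      rw [h4] at h3
      have h5 := BH_mul (gA_BH G d hG) (BH_mul h3 (BH_nat (k := k) (j + 1)))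
      have h6 : d + (e + 0) = e + d := by omega
      have h7 : 0 + (n - 3 * j + 0) = n - 3 * j := by omega
      rw [h6, h7] at h5
      exact h5
    · intro hj
      rw [h2 (by omega), zero_mul, mul_zero]
  · intro l
    obtain ⟨g1, g2, -⟩ := hPSG k G d l
    obtain ⟨N1, hN1⟩ := hP l
    have h1 := g2 N
    rw [hN1] at h1
    have h2 : Polynomial.derivative (gp G ^ M * N1) = gp G ^ M * Polynomial.derivative N1 := by
      have h3 : gp G ^ M = Polynomial.C ((aeval (xb (k := k)) G) ^ M) := by
        unfold gp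
        rw [map_pow]
      rw [h3, Polynomial.derivative_C_mul]
    rw [h2] at h1
    rw [map_mul, g1]
    have hd0 : (d : k) ≠ 0 := by
      have : d ≠ 0 := by omega
      exact_mod_cast this
    have hc : Polynomial.C ((C ((d : k)⁻¹) : B2 k)) * Polynomial.C ((d : B2 k)) = 1 := by
      rw [← Polynomial.C_mul]
      have h4 : (d : B2 k) = C (d : k) := by rw [map_natCast]
      rw [h4, ← C_mul, inv_mul_cancel₀ hd0, C_1, Polynomial.C_1]
    refine ⟨Polynomial.C ((C ((d : k)⁻¹) : B2 k)) * Polynomial.derivative N1, ?_⟩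
    calc gp G * Psi G d l (Polynomial.derivative N)
        = (Polynomial.C ((C ((d : k)⁻¹) : B2 k)) * Polynomial.C ((d : B2 k))) * (gp G *
            Psi G d l (Polynomial.derivative N)) := by rw [hc, one_mul]
      _ = Polynomial.C ((C ((d : k)⁻¹) : B2 k)) * (Polynomial.C ((d : B2 k)) * gp G *
            Psi G d l (Polynomial.derivative N)) := by ring
      _ = gp G ^ M * (Polynomial.C ((C ((d : k)⁻¹) : B2 k)) * Polynomial.derivative N1) := by
          rw [← h1]; ring

end Pool.Agent.H77.ND
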