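import Pool.Agent.H84.ND.Targets2
import Pool.Agent.H11.SM.MUG

/-!
# MUN: change of the denominator, irreducible curves (MP_70ba79_ag, board `ndc_modules`)
-/

set_option autoImplicit false

namespace Pool.Agent.H77.ND

open MvPolynomial SC Pool.Agent.H27.LV Pool.Agent.H84.SM Pool.Agent.H84.ND Pool.Agent.H11.SM

theorem pf_MUN (hORN : T_ORN) (hGPN : T_GPN) (hPSG : Pool.Agent.H84.SM.T_PSG)
    (_hINV : Pool.Agent.H84.SM.T_INV) (hHOM : Pool.Agent.H84.SM.T_HOM) : T_MUN := by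
  intro k _ _ _ G d hS n M j τ N hN
  obtain ⟨hp1, _, hp3, _, _⟩ := hGPN k G d hS
  have hgp : gp G ≠ 0 := hp1.ne_zero
  have hgA : gA G ≠ 0 := hp3.ne_zero
  have hPsi : ∀ l, Psi G d l (gR G) = gp G := fun l => (hPSG k G d l).1
  have hfwd : ∀ (τ : ℤ) (M j M' : ℕ), IsSec G d n τ M N → M' ≤ M + j →
      IsSec G d n (τ + d * j - d * (M' - M)) M' (gR G ^ j * N) := by
    intro τ M j M' h hM'
    obtain ⟨h1, ⟨e, he, h2⟩, h3⟩ := h
    refine ⟨(Inv_mul_iff hgA j N).2 h1, ⟨e + d * j, ?_, BHN_mul hS.hom h2 j⟩, fun l => ?_⟩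
    · push_cast
      linear_combination he
    · rw [map_mul, map_pow, hPsi]
      refine (pow_dvd_pow _ hM').trans ?_
      rw [pow_add, mul_comm]
      exact mul_dvd_mul_left _ (h3 l)
  refine ⟨⟨fun h => ?_, fun h => ?_⟩, fun h => ?_, fun ⟨l, hl⟩ h => ?_⟩
  · have h1 := hfwd τ M j (M + j) h le_rfl
    have h2 : τ + d * j - d * (((M + j : ℕ) : ℤ) - M) = τ := by
      push_cast
      ring
    rw [h2] at h1
    exact h1
  · obtain ⟨h1, ⟨e, he, h2⟩, h3⟩ := h
    obtain ⟨e', he', h4⟩ := BHN_unmul hHOM hS.hom hgA hN j h2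
    refine ⟨(Inv_mul_iff hgA j N).1 h1, ⟨e', ?_, h4⟩, fun l => ?_⟩
    · rw [he'] at he
      push_cast at he
      linear_combination he
    · have h5 := h3 l
      rw [map_mul, map_pow, hPsi, add_comm, pow_add] at h5
      exact (mul_dvd_mul_iff_left (pow_ne_zero j hgp)).1 h5
  · have h1 := hfwd τ M 1 M h (by omega)
    have h2 : τ + d * ((1 : ℕ) : ℤ) - d * ((M : ℤ) - M) = τ + d := by
      push_cast
      ring
    rw [h2, pow_one] at h1
    exact h1
  · obtain ⟨h1, ⟨e, he, h2⟩, h3⟩ := h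
    refine ⟨h1, ⟨e, ?_, h2⟩, fun l' => hORN k G d hS e n (M + 1) N h2 l l' hl⟩
    push_cast
    linear_combination he

end Pool.Agent.H77.ND
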